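import Pool.Agent.Zk77.RFJ.A

set_option autoImplicit false

/-!
The extreme end points of the sides crossed by a periodic strip are visible from its points.
-/

namespace Pool.Agent.Zk77.RF

open Complex Set MeasureTheory Filter Topology Pool.Agent.W780.PG Pool.Agent.W780.BB
  Pool.Agent.TH578.BE Pool.Agent.K3h17.BK Pool.Agent.Zk55.CF Pool.Agent.Zk55.RF

open scoped Real ComplexConjugate

variable {n : ℕ} {p : Fin (n + 3) → ℂ}

theorem ph_h (θ h : ℝ) (y : ℂ) : ph (θ, h) y = ph (θ, 0) y - h := by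
  unfold ph
  simp only
  ring

theorem tt_h (θ h : ℝ) (y : ℂ) : tt (θ, h) y = tt (θ, 0) y := rfl

theorem arctan_small {ε : ℝ} (hε : 0 < ε) : ∃ t : ℝ, 0 < t ∧ ∀ y, 0 < y → y < t →
    Real.arctan y < ε := by
  have h1 : Tendsto Real.arctan (𝓝 0) (𝓝 0) := by
    have := Real.continuous_arctan.tendsto 0
    rwa [Real.arctan_zero] at this
  obtain ⟨t, ht, h2⟩ := Metric.mem_nhds_iff.1 (h1 (Iio_mem_nhds hε))
  refine ⟨t, ht, fun y hy hyt => ?_⟩
  exact h2 (by rw [Metric.mem_ball, Real.dist_eq, sub_zero, abs_of_pos hy]; exact hyt)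

theorem side_vis (hp : IsConvexPolygon p) {θ : ℝ} {a : ℕ → Fin (n + 3)} {N : ℕ} (hN : Even N)
    (hN0 : 0 < N) (ha : ∀ l, a (N + l) = a l) {T : ℝ} (hT : 0 < T)
    (hX : ∀ y, tt (θ, 0) (uf p (Wd a N) y) = tt (θ, 0) y + T)
    (hY : ∀ y, ph (θ, 0) (uf p (Wd a N) y) = ph (θ, 0) y) {s : ℝ} (hs : s = 1 ∨ s = -1) {z : ℂ}
    (hz : z ∈ reg p)
    (hE : ∀ l < N, 0 < s * (ph (θ, 0) (EE p s a l) - ph (θ, 0) z) ∧
      s * (ph (θ, 0) (FF p s a l) - ph (θ, 0) z) < 0) {b : ℕ} (hb : b < N)
    (hmin : ∀ l < N, s * ph (θ, 0) (EE p s a b) ≤ s * ph (θ, 0) (EE p s a l)) {ε : ℝ}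
    (hε : 0 < ε) : ∃ α ∈ Ioo 0 ε, ∃ w, VisAt p z w (ke s a b) (θ + s * α) := by
  classical
  have hs0 : s ≠ 0 := by rcases hs with rfl | rfl <;> norm_num
  have hper := per_all (p := p) hN ha (s := s) hX hY
  have hrot := ph_rot hs θ
  generalize hXd : tt (θ, 0) = X at hper hrot hX
  have hYz : ∀ h y, ph (θ, h) y = ph (θ, 0) y - h := ph_h θ
  have hord' := fun h => order hp hs (a := a) (x := (θ, h))
  generalize hYd : ph (θ, 0) = Y at hper hrot hY hE hmin hYz
  set e : ℝ := s * (Y (EE p s a b) - Y z) with he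
  have he0 : 0 < e := (hE b hb).1
  -- reduction modulo N
  have hmod : ∀ l, ∃ m l', l = m * N + l' ∧ l' < N := fun l =>
    ⟨l / N, l % N, (Nat.div_add_mod' l N).symm, Nat.mod_lt _ hN0⟩
  have hEall : ∀ l, 0 < s * (Y (EE p s a l) - Y z) ∧ s * (Y (FF p s a l) - Y z) < 0 := by
    intro l
    obtain ⟨m, l', rfl, hl'⟩ := hmod l
    obtain ⟨-, -, h2, -, h4⟩ := hper m l'
    rw [h2, h4]
    exact hE l' hl'
  have hminall : ∀ l, s * Y (EE p s a b) ≤ s * Y (EE p s a l) := by
    intro l
    obtain ⟨m, l', rfl, hl'⟩ := hmod l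
    obtain ⟨-, -, h2, -, h4⟩ := hper m l'
    rw [h2]
    exact hmin l' hl'
  -- the order
  have hord : ∀ l m, l ≤ m → Y (EE p s a l) = Y (EE p s a b) → Y (EE p s a m) = Y (EE p s a b) →
      X (EE p s a l) < X (EE p s a m) ∨ (ke s a l = ke s a m ∧ EE p s a l = EE p s a m) := by
    intro l m hlm h1 h2
    have h3 := hord' (Y (EE p s a b)) (l := l) (m := m) (fun l => by
      rw [hYz, hYz]
      have h4 := hminall l
      have h5 := (hEall l).2
      constructor
      · linarith
      · have : s * (Y (FF p s a l) - Y (EE p s a b)) = s * (Y (FF p s a l) - Y z) - e := by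
          rw [he]; ring
        rw [this]
        linarith) (by rw [hYz, h1, sub_self]) hlm (by rw [hYz, h2, sub_self])
    rw [tt_h θ _ (EE p s a l), tt_h θ _ (EE p s a m), hXd] at h3
    exact h3
  -- the constants
  obtain ⟨δ, hδ, hδ'⟩ := exists_gap (fun l => s * Y (EE p s a l) - s * Y (EE p s a b)) N
  obtain ⟨g, hg, hg'⟩ := exists_gap (fun l => -(s * (Y (FF p s a l) - Y z))) N
  obtain ⟨C1, hC1, hC1'⟩ := exists_bd (fun l => X (EE p s a l) - X (EE p s a b)) N
  obtain ⟨C2, hC2, hC2'⟩ := exists_bd (fun l => X z - X (FF p s a l)) N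
  obtain ⟨t, ht, htan⟩ := arctan_small hε
  obtain ⟨j, hj⟩ : ∃ j : ℕ, e * C1 / δ + e * C2 / g + e / t + |X (EE p s a 0) - X z| <
      X (EE p s a b) + j * T - X z := by
    obtain ⟨j, hj⟩ := exists_nat_gt ((e * C1 / δ + e * C2 / g + e / t + |X (EE p s a 0) - X z| -
      X (EE p s a b) + X z) / T)
    rw [div_lt_iff₀ hT] at hj
    exact ⟨j, by linarith⟩
  obtain ⟨hL0, hL1, hL2, -, -⟩ := hper j b
  set L := j * N + b with hL
  set D := X (EE p s a L) - X z with hD
  have hDj : e * C1 / δ + e * C2 / g + e / t + |X (EE p s a 0) - X z| < D := by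
    rw [hD, hL1]; exact hj
  have q1 : 0 ≤ e * C1 / δ := by positivity
  have q2 : 0 ≤ e * C2 / g := by positivity
  have q3 : 0 < e / t := by positivity
  have q4 := abs_nonneg (X (EE p s a 0) - X z)
  have hD0 : 0 < D := by linarith
  have hD1 : e * C1 < D * δ := by
    rw [← div_lt_iff₀ hδ]; linarith
  have hD2 : e * C2 < D * g := by
    rw [← div_lt_iff₀ hg]; linarith
  have hD3 : e / D < t := by
    rw [div_lt_iff₀ hD0, mul_comm, ← div_lt_iff₀ ht]; linarith
  have hD4 : X (EE p s a 0) < X (EE p s a L) := by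
    have := le_abs_self (X (EE p s a 0) - X z)
    linarith
  have key1 : ∀ l ≤ L, Y (EE p s a l) ≠ Y (EE p s a b) →
      0 < D * (s * (Y (EE p s a l) - Y z)) - e * (X (EE p s a l) - X z) := by
    intro l hl hne
    have h1 : 0 < s * Y (EE p s a l) - s * Y (EE p s a b) := by
      have h2 := hminall l
      rcases h2.lt_or_eq with h3 | h3
      · linarith
      · exact absurd (mul_left_cancel₀ hs0 h3).symm hne
    obtain ⟨m, l', hll, hl'⟩ := hmod l
    have hm : m ≤ j := by
      by_contra hcon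
      push Not at hcon
      have h2 : (j + 1) * N ≤ m * N := Nat.mul_le_mul_right N hcon
      rw [add_mul, one_mul] at h2
      omega
    obtain ⟨-, h3, h4, -, -⟩ := hper m l'
    rw [← hll] at h3 h4
    have h5 : δ ≤ s * Y (EE p s a l) - s * Y (EE p s a b) := by
      rw [h4] at h1 ⊢
      exact hδ' l' hl' h1
    have h6 : X (EE p s a l) ≤ X (EE p s a L) + C1 := by
      have h7 := hC1' l' hl'
      have h8 : (m : ℝ) * T ≤ j * T := mul_le_mul_of_nonneg_right (by exact_mod_cast hm) hT.le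
      rw [h3, hL1]
      linarith
    have h9 : D * (s * (Y (EE p s a l) - Y z)) - e * (X (EE p s a l) - X z) =
        D * (s * Y (EE p s a l) - s * Y (EE p s a b)) + e * (X (EE p s a L) - X (EE p s a l)) := by
      have : s * (Y (EE p s a l) - Y z) = (s * Y (EE p s a l) - s * Y (EE p s a b)) + e := by
        rw [he]; ring
      rw [this, hD]
      ring
    rw [h9]
    have h10 : D * δ ≤ D * (s * Y (EE p s a l) - s * Y (EE p s a b)) :=
      mul_le_mul_of_nonneg_left h5 hD0.le
    have h11 : e * (-C1) ≤ e * (X (EE p s a L) - X (EE p s a l)) :=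
      mul_le_mul_of_nonneg_left (by linarith) he0.le
    linarith
  have key2 : ∀ l, D * (s * (Y (FF p s a l) - Y z)) - e * (X (FF p s a l) - X z) < 0 := by
    intro l
    have h1 := (hEall l).2
    obtain ⟨m, l', hll, hl'⟩ := hmod l
    obtain ⟨-, -, -, h3, h4⟩ := hper m l'
    rw [← hll] at h3 h4
    have h5 : g ≤ -(s * (Y (FF p s a l) - Y z)) := by
      rw [h4] at h1 ⊢
      exact hg' l' hl' (by linarith)
    have h6 : X z - C2 ≤ X (FF p s a l) := by
      have h7 := hC2' l' hl'
      have h8 : 0 ≤ (m : ℝ) * T := by positivity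
      rw [h3]
      linarith
    have h10 : D * (s * (Y (FF p s a l) - Y z)) ≤ D * (-g) :=
      mul_le_mul_of_nonneg_left (by linarith) hD0.le
    have h11 : e * (-C2) ≤ e * (X (FF p s a l) - X z) :=
      mul_le_mul_of_nonneg_left (by linarith) he0.le
    linarith
  -- the direction
  set α := Real.arctan (e / D) with hα
  have hα0 : 0 < α := Real.arctan_pos.2 (by positivity)
  have hα1 : α < ε := htan _ (by positivity) hD3
  have hcos : 0 < Real.cos α := Real.cos_arctan_pos _
  have hsin : Real.sin α = e / D * Real.cos α := by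
    have h1 : Real.tan α = e / D := Real.tan_arctan _
    rw [← h1, Real.tan_mul_cos hcos.ne']
  have hph : ∀ y, s * ph (ln z (θ + s * α)) y =
      Real.cos α / D * (D * (s * (Y y - Y z)) - e * (X y - X z)) := by
    intro y
    rw [hrot, hsin]
    field_simp
  have hc : 0 < Real.cos α / D := by positivity
  have hex : ∃ l, ke s a l = ke s a L ∧ EE p s a l = EE p s a L := ⟨L, rfl, rfl⟩
  obtain ⟨hf1, hf2⟩ := Nat.find_spec hex
  have hf3 : Nat.find hex ≤ L := Nat.find_min' hex ⟨rfl, rfl⟩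
  have hf4 : ∀ l < Nat.find hex, ¬ (ke s a l = ke s a L ∧ EE p s a l = EE p s a L) :=
    fun l hl => Nat.find_min hex hl
  generalize Nat.find hex = l0 at hf1 hf2 hf3 hf4
  have hl0 : l0 ≠ 0 := by
    rintro rfl
    rw [hf2] at hD4
    exact lt_irrefl _ hD4
  have hRW : RW p (Wd a l0) (ln z (θ + s * α)) := by
    rw [RW_iff hp hs]
    intro l hl
    rw [hph, hph]
    refine ⟨mul_pos hc ?_, mul_neg_of_pos_of_neg hc (key2 l)⟩
    by_cases h1 : Y (EE p s a l) = Y (EE p s a b)
    · rcases hord l L (by omega) h1 hL2 with h2 | h2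
      · rw [h1, ← he]
        have h3 : D * e - e * (X (EE p s a l) - X z) =
            e * (X (EE p s a L) - X (EE p s a l)) := by rw [hD]; ring
        rw [h3]
        exact mul_pos he0 (by linarith)
      · exact absurd h2 (hf4 l hl)
    · exact key1 l (by omega) h1
  have hk : ph (ln z (θ + s * α)) (uf p (Wd a l0) (p (ke s a b))) = 0 := by
    have h1 : uf p (Wd a l0) (p (ke s a b)) = EE p s a L := by
      rw [← hf2, ← hL0, ← hf1]
      rfl
    rw [h1]
    have h2 := hph (EE p s a L)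
    rw [hL2, ← he, ← hD] at h2
    have h3 : s * ph (ln z (θ + s * α)) (EE p s a L) = 0 := by
      rw [h2]; ring
    exact (mul_eq_zero.1 h3).resolve_left hs0
  refine ⟨α, ⟨hα0, hα1⟩, Wd a l0, visAt_of hp hz ?_ hRW hk⟩
  intro h
  have := Wd_length a l0
  rw [h] at this
  exact hl0 this.symm

/-- the periodic sequence of a word -/
theorem seq_of (u : List (Fin (n + 3))) (hu : u ≠ []) : ∃ a : ℕ → Fin (n + 3),
    (∀ l, a (u.length + l) = a l) ∧ (∀ l (h : l < u.length), a l = u[l]) ∧
      ∀ m ≤ u.length, Wd a m = u.take m := by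
  have hpos : 0 < u.length := List.length_pos_iff.2 hu
  refine ⟨fun l => u.getD (l % u.length) 0, fun l => ?_, fun l h => ?_, fun m hm => ?_⟩
  · simp
  · simp only
    rw [Nat.mod_eq_of_lt h, List.getD_eq_getElem _ _ h]
  · induction m with
    | zero => simp [Wd]
    | succ m ih =>
      have h : m < u.length := by omega
      rw [Wd, ih (by omega), Nat.mod_eq_of_lt h, List.getD_eq_getElem _ _ h]
      simp

/-- The points of a periodic strip see one vertex in directions which tend to the directions of the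
strip. -/
theorem per_vis (hp : IsConvexPolygon p) {θ s1 s2 : ℝ} {u : List (Fin (n + 3))}
    (h : PerStrip p θ s1 s2 u) {z : ℂ} (hz : z ∈ reg p) (h1 : s1 < (conj (dir θ) * z).im)
    (h2 : (conj (dir θ) * z).im < s2) : ∃ k : Fin (n + 3), ∀ ε : ℝ, 0 < ε →
      (∃ α ∈ Ioo 0 ε, ∃ w, VisAt p z w k (θ + α)) ∧
      (∃ α ∈ Ioo 0 ε, ∃ w, VisAt p z w k (θ + π - α)) := by
  obtain ⟨hr1, -⟩ := Pool.Agent.W347.BB.ref n p hp
  obtain ⟨kk, hret⟩ := h.ret
  set N := u.length with hNdef
  have hN0 : 0 < N := List.length_pos_iff.2 h.ne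
  have hNe : Even N := h.even
  -- the translation
  have hY : ∀ y, ph (θ, 0) (uf p u y) = ph (θ, 0) y := by
    intro y
    have e := ph_fw hr1 u (θ, 0) y
    rw [hret 0, h.even.neg_one_pow, one_mul] at e
    rw [← e]
    exact ph_per (θ, 0) kk y
  have htper : ∀ (σ : ℝ) (y : ℂ), tt (θ + 2 * π * kk, σ) y = tt (θ, 0) y := by
    intro σ y
    unfold tt
    simp only [dir_int]
  obtain ⟨T, hX⟩ : ∃ T : ℝ, ∀ y, tt (θ, 0) (uf p u y) = tt (θ, 0) y + T := by
    refine ⟨tt (θ, 0) (uf p u 0) - tt (θ, 0) 0, fun y => ?_⟩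
    have e := tt_fw hr1 u (θ, 0) y 0
    rw [hret 0, htper, htper] at e
    linarith
  have hT : 0 < T := by
    have hm : s1 ∈ Icc s1 s2 := ⟨le_rfl, h.lt.le⟩
    obtain ⟨y0, hy0, hy1⟩ := h.meet s1 hm
    have hc : Continuous fun r : ℝ => y0 + r • dir θ := by fun_prop
    have h3 : ∀ᶠ r : ℝ in 𝓝[>] (0 : ℝ), y0 + r • dir θ ∈ reg p := by
      have h4 := hc.tendsto 0
      rw [zero_smul, add_zero] at h4
      exact (h4.mono_left nhdsWithin_le_nhds) ((reg_op hp).mem_nhds hy0)
    obtain ⟨r, h4, h5⟩ := (h3.and self_mem_nhdsWithin).exists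
    have hr : (0 : ℝ) < r := h5
    have e1 : ph (θ, s1) (y0 + r • dir θ) = 0 := by
      have := ph_shift (θ, s1) y0 r
      rw [hy1] at this
      exact this
    have e2 : ph (fw p u (θ, s1)) y0 = 0 := by
      rw [hret s1]
      exact (ph_per (θ, s1) kk y0).trans hy1
    have e3 := ord_pt hp u h.ne (θ, s1) (y0 + r • dir θ) y0 (RW_WS _ _ (h.cross s1 hm)) e1
      (fun j => (h4 j).le) (fun j => (hy0 j).le) e2
    rw [tt_h θ _ (y0 + r • dir θ), tt_h θ _ (uf p u y0), hX] at e3
    have e4 : tt (θ, 0) (y0 + r • dir θ) = tt (θ, 0) y0 + r := by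
      unfold tt
      have e : conj (dir θ) * (y0 + r • dir θ) =
          conj (dir θ) * y0 + (r : ℂ) * (conj (dir θ) * dir θ) := by
        rw [real_smul]
        ring
      simp only
      rw [e, conj_dir_mul, mul_one, Complex.add_re, Complex.ofReal_re]
    rw [e4] at e3
    linarith
  -- the sequences
  obtain ⟨a, ha1, ha2, ha3⟩ := seq_of u h.ne
  have hWu : Wd a N = u := by rw [ha3 N le_rfl]; exact List.take_length
  have hur : u.reverse ≠ [] := by simpa using h.ne
  have hlr : u.reverse.length = N := List.length_reverse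
  obtain ⟨a', hb1, hb2, hb3⟩ := seq_of u.reverse hur
  rw [hlr] at hb1 hb3
  have hWu' : Wd a' N = u.reverse := by
    rw [hb3 N le_rfl]
    exact List.take_of_length_le hlr.le
  have hz' : (conj (dir θ) * z).im = ph (θ, 0) z := by
    unfold ph
    simp
  rw [hz'] at h1 h2
  have hcr := h.cross (ph (θ, 0) z) ⟨h1.le, h2.le⟩
  -- the inverse of the unfolding
  have hinv : ∀ (w : List (Fin (n + 3))) (y : ℂ), uf p w (uf p w.reverse y) = y := by
    intro w
    induction w with
    | nil => intro y; rfl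
    | cons i w ih =>
      intro y
      rw [List.reverse_cons, uf_append, uf, ih]
      exact hr1 i y
  -- the nearest left end point
  obtain ⟨b, hb, hbmin⟩ : ∃ b < N, ∀ l < N, ph (θ, 0) (EE p 1 a b) ≤ ph (θ, 0) (EE p 1 a l) := by
    obtain ⟨b, hb, hb'⟩ := Finset.exists_min_image (Finset.range N)
      (fun l => ph (θ, 0) (EE p 1 a l)) ⟨0, Finset.mem_range.2 hN0⟩
    exact ⟨b, Finset.mem_range.1 hb, fun l hl => hb' l (Finset.mem_range.2 hl)⟩
  -- comparison of the two sequences
  have hcmp : ∀ l < N, ke (-1) a' (N - 1 - l) = ke 1 a l ∧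
      ph (θ, 0) (EE p (-1) a' (N - 1 - l)) = ph (θ, 0) (EE p 1 a l) := by
    intro l hl
    have e1 : a' (N - 1 - l) = a l := by
      rw [hb2 (N - 1 - l) (by rw [hlr]; omega), ha2 l hl, List.getElem_reverse]
      congr 1
      omega
    have e2 : (-1 : ℝ) * (-1) ^ (N - 1 - l) = 1 * (-1) ^ l := by
      have e3 : (-1 : ℝ) ^ (N - 1 - l) * (-1) ^ l * (-1) = 1 := by
        rw [← pow_add, ← pow_succ, show N - 1 - l + l + 1 = N by omega, hNe.neg_one_pow]
      have e4 : (-1 : ℝ) ^ l * (-1) ^ l = 1 := by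
        rw [← pow_add, ← two_mul, (even_two_mul l).neg_one_pow]
      calc (-1 : ℝ) * (-1) ^ (N - 1 - l) = (-1) * (-1) ^ (N - 1 - l) * ((-1) ^ l * (-1) ^ l) := by
            rw [e4, mul_one]
        _ = ((-1 : ℝ) ^ (N - 1 - l) * (-1) ^ l * (-1)) * (-1) ^ l := by ring
        _ = 1 * (-1) ^ l := by rw [e3]
    have e3 : ke (-1) a' (N - 1 - l) = ke 1 a l := by
      unfold ke
      rw [e1, e2]
    refine ⟨e3, ?_⟩
    have e4 : Wd a' (N - 1 - l) = (u.drop (l + 1)).reverse := by
      rw [hb3 _ (by omega), List.take_reverse]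
      congr 2
      omega
    have e5 : EE p (-1) a' (N - 1 - l) = uf p (u.drop (l + 1)).reverse (p (ke 1 a l)) := by
      unfold EE
      rw [e3, e4]
    have e6 : EE p 1 a l = uf p u (EE p (-1) a' (N - 1 - l)) := by
      have e7 : uf p (Wd a (l + 1)) (p (ke 1 a l)) = EE p 1 a l := by
        refine uf_fix hp _ ?_
        unfold ke
        split_ifs
        · exact Or.inr rfl
        · exact Or.inl rfl
      have e8 : u = Wd a (l + 1) ++ u.drop (l + 1) := by
        rw [ha3 (l + 1) (by omega), List.take_append_drop]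
      have e9 : ∀ y, uf p u y = uf p (Wd a (l + 1)) (uf p (u.drop (l + 1)) y) := fun y =>
        (congrArg (fun w => uf p w y) e8).trans (uf_append _ _ _)
      rw [e5, e9, hinv, e7]
    rw [e6, hY]
  refine ⟨ke 1 a b, fun ε hε => ⟨?_, ?_⟩⟩
  · obtain ⟨α, hα, w, hw⟩ := side_vis hp hNe hN0 ha1 hT (by rw [hWu]; exact hX)
      (by rw [hWu]; exact hY) (s := 1) (Or.inl rfl) hz (by
        rw [← hWu, RW_iff hp (s := 1) (Or.inl rfl)] at hcr
        intro l hl
        have := hcr l hl
        rw [ph_h θ _ (EE p 1 a l), ph_h θ _ (FF p 1 a l)] at this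
        exact this) hb (by
        intro l hl
        rw [one_mul, one_mul]
        exact hbmin l hl) hε
    rw [one_mul] at hw
    exact ⟨α, hα, w, hw⟩
  · have hp0 : ∀ y, ph (θ + π, 0) y = - ph (θ, 0) y := by
      intro y
      have := ph_rv (θ, 0) y
      unfold rv at this
      simpa using this
    have ht0 : ∀ y, tt (θ + π, 0) y = - tt (θ, 0) y := by
      intro y
      have := tt_rv (θ, 0) y
      unfold rv at this
      simpa using this
    have hcr' : RW p u.reverse (θ + π, - ph (θ, 0) z) := by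
      obtain ⟨k1, -⟩ := RW_rev hp u _ hcr
      rw [hret] at k1
      have e : rv (θ + 2 * π * kk, ph (θ, 0) z) =
          ((θ + π, - ph (θ, 0) z).1 + 2 * π * (kk : ℝ), (θ + π, - ph (θ, 0) z).2) := by
        unfold rv
        simp only
        ext
        · show _ = _
          ring
        · rfl
      rw [e, RW_per] at k1
      exact k1
    obtain ⟨α, hα, w, hw⟩ := side_vis hp (θ := θ + π) hNe hN0 hb1 hT (by
        intro y
        rw [hWu', ht0, ht0]
        have := hX (uf p u.reverse y)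
        rw [hinv] at this
        linarith) (by
        intro y
        rw [hWu', hp0, hp0]
        have := hY (uf p u.reverse y)
        rw [hinv] at this
        linarith) (s := -1) (Or.inr rfl) hz (by
        rw [← hWu', RW_iff hp (s := -1) (Or.inr rfl)] at hcr'
        intro l hl
        have := hcr' l hl
        rw [ph_h (θ + π) _ (EE p (-1) a' l), ph_h (θ + π) _ (FF p (-1) a' l)] at this
        rw [hp0 z]
        exact this) (b := N - 1 - b) (by omega) (by
        intro l hl
        have e1 := (hcmp b hb).2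
        have e2 := (hcmp (N - 1 - l) (by omega)).2
        rw [show N - 1 - (N - 1 - l) = l by omega] at e2
        have e3 := hbmin (N - 1 - l) (by omega)
        rw [hp0, hp0]
        linarith) hε
    rw [(hcmp b hb).1] at hw
    refine ⟨α, hα, w, ?_⟩
    rw [show θ + π - α = θ + π + -1 * α by ring]
    exact hw

end Pool.Agent.Zk77.RF
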