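import Pool.Agent.Zk55.RF.Word

set_option autoImplicit false

/-!
The end points of the sides crossed by a strip of lines, in the unfolded polygon.
-/

namespace Pool.Agent.Zk77.RF

open Complex Set MeasureTheory Filter Topology Pool.Agent.W780.PG Pool.Agent.W780.BB
  Pool.Agent.TH578.BE Pool.Agent.K3h17.BK Pool.Agent.Zk55.CF Pool.Agent.Zk55.RF

open scoped Real ComplexConjugate

variable {n : ℕ} {p : Fin (n + 3) → ℂ}

/-- the word of the first letters of a sequence -/
def Wd (a : ℕ → Fin (n + 3)) : ℕ → List (Fin (n + 3))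
  | 0 => []
  | l + 1 => Wd a l ++ [a l]

theorem Wd_length (a : ℕ → Fin (n + 3)) (l : ℕ) : (Wd a l).length = l := by
  induction l with
  | zero => rfl
  | succ l ih => rw [Wd, List.length_append, ih]; rfl

theorem Wd_split (a : ℕ → Fin (n + 3)) {l m : ℕ} (h : l ≤ m) : ∃ v, Wd a m = Wd a l ++ v := by
  induction m, h using Nat.le_induction with
  | base => exact ⟨[], by simp⟩
  | succ m _ ih =>
    obtain ⟨v, hv⟩ := ih
    exact ⟨v ++ [a m], by rw [Wd, hv, List.append_assoc]⟩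

theorem Wd_add (a : ℕ → Fin (n + 3)) {N : ℕ} (ha : ∀ l, a (N + l) = a l) (l : ℕ) :
    Wd a (N + l) = Wd a N ++ Wd a l := by
  induction l with
  | zero => simp [Wd]
  | succ l ih =>
    rw [← add_assoc, Wd, ih, ha, List.append_assoc]
    rfl

/-- the index of the left (`s = 1`) or right (`s = -1`) end point of the side number `l` -/
noncomputable def ke (s : ℝ) (a : ℕ → Fin (n + 3)) (l : ℕ) : Fin (n + 3) :=
  if 0 < s * (-1) ^ l then a l + 1 else a l

/-- the index of the other end point -/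
noncomputable def kf (s : ℝ) (a : ℕ → Fin (n + 3)) (l : ℕ) : Fin (n + 3) :=
  if 0 < s * (-1) ^ l then a l else a l + 1

/-- the end point in the unfolded polygon -/
noncomputable def EE (p : Fin (n + 3) → ℂ) (s : ℝ) (a : ℕ → Fin (n + 3)) (l : ℕ) : ℂ :=
  uf p (Wd a l) (p (ke s a l))

/-- the other end point -/
noncomputable def FF (p : Fin (n + 3) → ℂ) (s : ℝ) (a : ℕ → Fin (n + 3)) (l : ℕ) : ℂ :=
  uf p (Wd a l) (p (kf s a l))

theorem RW_iff (hp : IsConvexPolygon p) {s : ℝ} (hs : s = 1 ∨ s = -1) (a : ℕ → Fin (n + 3))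
    (x : ℝ × ℝ) (m : ℕ) : RW p (Wd a m) x ↔
      ∀ l < m, 0 < s * ph x (EE p s a l) ∧ s * ph x (FF p s a l) < 0 := by
  obtain ⟨hr1, -⟩ := Pool.Agent.W347.BB.ref n p hp
  induction m with
  | zero => simp [Wd, RW]
  | succ m ih =>
    rw [Wd, RW_append, ih]
    have h : RW p [a m] (fw p (Wd a m) x) ↔
        0 < s * ph x (EE p s a m) ∧ s * ph x (FF p s a m) < 0 := by
      rw [RW, RW, ph_fw hr1, ph_fw hr1, Wd_length]
      unfold EE FF ke kf
      rcases hs with rfl | rfl <;> rcases neg_one_pow_eq_or ℝ m with hc | hc <;> rw [hc] <;>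
        norm_num <;> tauto
    rw [h]
    constructor
    · rintro ⟨h1, h2⟩ l hl
      rcases Nat.lt_succ_iff_lt_or_eq.1 hl with h3 | rfl
      · exact h1 l h3
      · exact h2
    · intro h1
      exact ⟨fun l hl => h1 l (by omega), h1 m (by omega)⟩

theorem WW_append (u v : List (Fin (n + 3))) : ∀ x : ℝ × ℝ,
    WW p (u ++ v) x ↔ WW p u x ∧ WW p v (fw p u x) := by
  induction u with
  | nil => intro x; simp [WW, fw]
  | cons i u ih => intro x; rw [List.cons_append, WW, WW, ih, fw]; tauto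

theorem WW_of (hp : IsConvexPolygon p) {s : ℝ} (hs : s = 1 ∨ s = -1) (a : ℕ → Fin (n + 3))
    (x : ℝ × ℝ) (m : ℕ) (h : ∀ l < m, 0 ≤ s * ph x (EE p s a l) ∧ s * ph x (FF p s a l) ≤ 0) :
    WW p (Wd a m) x := by
  obtain ⟨hr1, -⟩ := Pool.Agent.W347.BB.ref n p hp
  induction m with
  | zero => simp [Wd, WW]
  | succ m ih =>
    rw [Wd, WW_append]
    refine ⟨ih fun l hl => h l (by omega), ?_⟩
    have h1 := h m (by omega)
    rw [WW, WW, ph_fw hr1, ph_fw hr1, Wd_length]
    unfold EE FF ke kf at h1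
    revert h1
    rcases hs with rfl | rfl <;> rcases neg_one_pow_eq_or ℝ m with hc | hc <;> rw [hc] <;>
      norm_num <;> tauto

theorem uf_fix (hp : IsConvexPolygon p) (W : List (Fin (n + 3))) {i k : Fin (n + 3)}
    (h : k = i ∨ k = i + 1) : uf p (W ++ [i]) (p k) = uf p W (p k) := by
  rw [uf_append]
  have e : uf p [i] (p k) = rf p i (p k) := rfl
  rw [e]
  rcases h with rfl | rfl
  · rw [rf_left hp]
  · rw [rf_right hp]

/-- The extreme end points are met in order. -/
theorem order (hp : IsConvexPolygon p) {s : ℝ} (hs : s = 1 ∨ s = -1) {a : ℕ → Fin (n + 3)}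
    {x : ℝ × ℝ} (hW : ∀ l, 0 ≤ s * ph x (EE p s a l) ∧ s * ph x (FF p s a l) < 0) {l m : ℕ}
    (hl : ph x (EE p s a l) = 0) (hlm : l ≤ m) : ph x (EE p s a m) = 0 →
      tt x (EE p s a l) < tt x (EE p s a m) ∨
        (ke s a l = ke s a m ∧ EE p s a l = EE p s a m) := by
  obtain ⟨hr1, -⟩ := Pool.Agent.W347.BB.ref n p hp
  induction m, hlm using Nat.le_induction with
  | base => exact fun _ => Or.inr ⟨rfl, rfl⟩
  | succ m hlm ih =>
    intro h0
    by_cases hk : ke s a (m + 1) = a m ∨ ke s a (m + 1) = a m + 1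
    · have e : EE p s a (m + 1) = uf p (Wd a m) (p (ke s a (m + 1))) := uf_fix hp _ hk
      have hh : ke s a (m + 1) = ke s a m ∨ ke s a (m + 1) = kf s a m := by
        have e1 : (ke s a m = a m + 1 ∧ kf s a m = a m) ∨ (ke s a m = a m ∧ kf s a m = a m + 1) := by
          unfold ke kf
          split_ifs
          · exact Or.inl ⟨rfl, rfl⟩
          · exact Or.inr ⟨rfl, rfl⟩
        rcases e1 with ⟨e1, e2⟩ | ⟨e1, e2⟩ <;> rw [e1, e2] <;> tauto
      rcases hh with hh | hh
      · rw [hh] at e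
        have e' : EE p s a (m + 1) = EE p s a m := e
        rw [e'] at h0 ⊢
        rw [hh]
        exact ih h0
      · rw [hh] at e
        have e' : EE p s a (m + 1) = FF p s a m := e
        rw [e'] at h0
        have := (hW m).2
        rw [h0, mul_zero] at this
        exact absurd this (lt_irrefl 0)
    · push Not at hk
      left
      obtain ⟨v, hv⟩ := Wd_split a hlm
      have hWW : WW p (Wd a (m + 1)) x := WW_of hp hs a x _ fun l _ => ⟨(hW l).1, (hW l).2.le⟩
      rw [Wd, hv, List.append_assoc, WW_append] at hWW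
      have h1 : ph (fw p (Wd a l) x) (p (ke s a l)) = 0 := by
        rw [ph_fw hr1]
        unfold EE at hl
        rw [hl, mul_zero]
      have e1 : EE p s a (m + 1) =
          uf p (Wd a l) (uf p (v ++ [a m]) (p (ke s a (m + 1)))) := by
        unfold EE
        rw [Wd, hv, List.append_assoc, uf_append]
      have h2 : ph (fw p (Wd a l) x) (uf p (v ++ [a m]) (p (ke s a (m + 1)))) = 0 := by
        rw [ph_fw hr1, ← e1, h0, mul_zero]
      have h3 := ord hp (a m) v _ (p (ke s a l)) hWW.2 h1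
        (fun j => Pool.Agent.W174.PG.l_nonneg hp j _) _ hk.1 hk.2 h2
      have h4 := tt_fw hr1 (Wd a l) x (p (ke s a l)) (uf p (v ++ [a m]) (p (ke s a (m + 1))))
      rw [← e1] at h4
      have h5 : uf p (Wd a l) (p (ke s a l)) = EE p s a l := rfl
      rw [h5] at h4
      linarith

/-! ### Periodic sequences -/

theorem ke_add {N : ℕ} (hN : Even N) {a : ℕ → Fin (n + 3)} (ha : ∀ l, a (N + l) = a l) (s : ℝ)
    (l : ℕ) : ke s a (N + l) = ke s a l ∧ kf s a (N + l) = kf s a l := by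
  unfold ke kf
  rw [pow_add, hN.neg_one_pow, one_mul, ha]
  exact ⟨rfl, rfl⟩

theorem EE_add {N : ℕ} (hN : Even N) {a : ℕ → Fin (n + 3)} (ha : ∀ l, a (N + l) = a l) (s : ℝ)
    (l : ℕ) : EE p s a (N + l) = uf p (Wd a N) (EE p s a l) ∧
      FF p s a (N + l) = uf p (Wd a N) (FF p s a l) := by
  unfold EE FF
  rw [(ke_add hN ha s l).1, (ke_add hN ha s l).2, Wd_add a ha, uf_append, uf_append]
  exact ⟨rfl, rfl⟩

theorem per_all {N : ℕ} (hN : Even N) {a : ℕ → Fin (n + 3)} (ha : ∀ l, a (N + l) = a l) {s : ℝ}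
    {θ T : ℝ} (hX : ∀ y, tt (θ, 0) (uf p (Wd a N) y) = tt (θ, 0) y + T)
    (hY : ∀ y, ph (θ, 0) (uf p (Wd a N) y) = ph (θ, 0) y) (j l : ℕ) :
    ke s a (j * N + l) = ke s a l ∧
    tt (θ, 0) (EE p s a (j * N + l)) = tt (θ, 0) (EE p s a l) + j * T ∧
    ph (θ, 0) (EE p s a (j * N + l)) = ph (θ, 0) (EE p s a l) ∧
    tt (θ, 0) (FF p s a (j * N + l)) = tt (θ, 0) (FF p s a l) + j * T ∧
    ph (θ, 0) (FF p s a (j * N + l)) = ph (θ, 0) (FF p s a l) := by
  induction j with
  | zero => simp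
  | succ j ih =>
    have e : (j + 1) * N + l = N + (j * N + l) := by ring
    obtain ⟨h0, h1, h2, h3, h4⟩ := ih
    rw [e, (ke_add hN ha s _).1, (EE_add hN ha s _).1, (EE_add hN ha s _).2, hX, hX, hY, hY, h0, h1,
      h2, h3, h4]
    push_cast
    refine ⟨rfl, ?_, rfl, ?_, rfl⟩ <;> ring

/-! ### Turning the line -/

theorem ph_rot {s : ℝ} (hs : s = 1 ∨ s = -1) (θ α : ℝ) (z y : ℂ) :
    s * ph (ln z (θ + s * α)) y = Real.cos α * (s * (ph (θ, 0) y - ph (θ, 0) z)) -
      Real.sin α * (tt (θ, 0) y - tt (θ, 0) z) := by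
  have e0 : ph (θ, 0) y - ph (θ, 0) z = (conj (dir θ) * (y - z)).im := by
    unfold ph
    rw [mul_sub, Complex.sub_im]
    ring
  have e1 : tt (θ, 0) y - tt (θ, 0) z = (conj (dir θ) * (y - z)).re := by
    unfold tt
    rw [mul_sub, Complex.sub_re]
  have e2 : conj (dir (θ + s * α)) * (y - z) = conj (dir (s * α)) * (conj (dir θ) * (y - z)) := by
    rw [← dir_mul, map_mul]
    ring
  have e3 : (conj (dir (s * α))).re = Real.cos α := by
    rw [Complex.conj_re]
    unfold dir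
    rw [Complex.exp_ofReal_mul_I_re]
    rcases hs with rfl | rfl
    · rw [one_mul]
    · rw [neg_one_mul, Real.cos_neg]
  have e4 : (conj (dir (s * α))).im = - (s * Real.sin α) := by
    rw [Complex.conj_im]
    unfold dir
    rw [Complex.exp_ofReal_mul_I_im]
    rcases hs with rfl | rfl
    · rw [one_mul, one_mul]
    · rw [neg_one_mul, Real.sin_neg, neg_one_mul]
  rw [ph_ln, e2, Complex.mul_im, e3, e4, e0, e1]
  rcases hs with rfl | rfl <;> ring

/-! ### Bounds -/

theorem exists_gap (f : ℕ → ℝ) (N : ℕ) : ∃ δ : ℝ, 0 < δ ∧ ∀ l < N, 0 < f l → δ ≤ f l := by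
  induction N with
  | zero => exact ⟨1, one_pos, fun l hl => absurd hl (Nat.not_lt_zero l)⟩
  | succ N ih =>
    obtain ⟨δ, hδ, h⟩ := ih
    by_cases hN : 0 < f N
    · refine ⟨min δ (f N), lt_min hδ hN, fun l hl h0 => ?_⟩
      rcases Nat.lt_succ_iff_lt_or_eq.1 hl with h1 | rfl
      · exact (min_le_left _ _).trans (h l h1 h0)
      · exact min_le_right _ _
    · refine ⟨δ, hδ, fun l hl h0 => ?_⟩
      rcases Nat.lt_succ_iff_lt_or_eq.1 hl with h1 | rfl
      · exact h l h1 h0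
      · exact absurd h0 hN

theorem exists_bd (f : ℕ → ℝ) (N : ℕ) : ∃ C : ℝ, 0 ≤ C ∧ ∀ l < N, f l ≤ C := by
  induction N with
  | zero => exact ⟨0, le_rfl, fun l hl => absurd hl (Nat.not_lt_zero l)⟩
  | succ N ih =>
    obtain ⟨C, hC, h⟩ := ih
    refine ⟨max C (f N), hC.trans (le_max_left _ _), fun l hl => ?_⟩
    rcases Nat.lt_succ_iff_lt_or_eq.1 hl with h1 | rfl
    · exact (h l h1).trans (le_max_left _ _)
    · exact le_max_right _ _

end Pool.Agent.Zk77.RF
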